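import Mathlib

set_option autoImplicit false

namespace Pool.Agent.Results.MP_41caf5_nt.ANeverLargest

/-- `a` is a perfect power: `a = x ^ m` for integers `x` and `m > 1`. -/
def IsPerfectPower (a : ℤ) : Prop := ∃ (x : ℤ) (m : ℕ), 1 < m ∧ a = x ^ m

/-- `g` is a primitive root modulo `p`: `p` does not divide `g` and the residue class of `g`
generates the group of units modulo `p`. -/
def IsPrimRoot (g : ℤ) (p : ℕ) : Prop :=
  ¬ (p : ℤ) ∣ g ∧ ∃ u : (ZMod p)ˣ, (u : ZMod p) = (g : ZMod p) ∧ Subgroup.zpowers u = ⊤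

/-- `a` is the largest negative primitive root modulo `p`. -/
def IsLargestNegPrimRoot (a : ℤ) (p : ℕ) : Prop :=
  IsPrimRoot a p ∧ ∀ b : ℤ, a < b → b < 0 → ¬ IsPrimRoot b p

lemma not_perfect : ¬ IsPerfectPower (-16) := by
  rintro ⟨x, m, hm, h⟩
  have h1 : x.natAbs ^ m = 2 ^ 4 := by
    have := congrArg Int.natAbs h
    rw [Int.natAbs_pow] at this
    rw [← this]; rfl
  have h2 : x.natAbs ∣ 2 ^ 4 := h1 ▸ dvd_pow_self _ (by omega)
  obtain ⟨j, hj, hx⟩ := (Nat.dvd_prime_pow Nat.prime_two).1 h2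
  rw [hx, ← pow_mul] at h1
  have h3 : j * m = 4 := Nat.pow_right_injective (le_refl 2) h1
  have h4 : m ∣ 4 := h3 ▸ Dvd.intro_left j rfl
  have h5 : m ≤ 4 := Nat.le_of_dvd (by norm_num) h4
  have h6 : Even m := by
    interval_cases m
    · decide
    · exact absurd h4 (by decide)
    · decide
  have h7 : 0 ≤ x ^ m := h6.pow_nonneg x
  omega

lemma step (p : ℕ) (hp : p.Prime) (h : IsPrimRoot (-16) p) : IsPrimRoot (-4) p := by
  have : Fact p.Prime := ⟨hp⟩
  obtain ⟨hd, u, hu, htop⟩ := h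
  have h2 : (2 : ZMod p) ≠ 0 := by
    intro h0
    apply u.ne_zero
    rw [hu]
    push_cast
    have : (-16 : ZMod p) = -8 * 2 := by norm_num
    rw [this, h0, mul_zero]
  set t : (ZMod p)ˣ := Units.mk0 2 h2 with ht
  set x : (ZMod p)ˣ := -(t ^ 2) with hx
  have hux : u = -(x ^ 2) := by
    ext
    rw [hu]
    simp [hx, ht]
    norm_num
  refine ⟨fun h4 => hd (h4.trans ⟨4, by norm_num⟩), x, ?_, ?_⟩
  · simp [hx, ht]
    norm_num
  · have hmem : t ∈ Subgroup.zpowers u := htop ▸ Subgroup.mem_top t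
    obtain ⟨k, hk⟩ := Subgroup.mem_zpowers_iff.1 hmem
    have hxm : x ∈ Subgroup.zpowers x := Subgroup.mem_zpowers x
    have ht2 : t ^ 2 ∈ Subgroup.zpowers x := by
      have e : t ^ 2 = (x ^ 4) ^ k := by
        rw [← hk, ← zpow_natCast, ← zpow_mul, mul_comm, zpow_mul, zpow_natCast, hux, neg_sq,
          ← pow_mul]
      rw [e]
      exact Subgroup.zpow_mem _ (Subgroup.pow_mem _ hxm 4) k
    have hneg : (-1 : (ZMod p)ˣ) ∈ Subgroup.zpowers x := by
      have e : (-1 : (ZMod p)ˣ) = x * (t ^ 2)⁻¹ := by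
        rw [hx, neg_mul, mul_inv_cancel]
      rw [e]
      exact Subgroup.mul_mem _ hxm (Subgroup.inv_mem _ ht2)
    have hum : u ∈ Subgroup.zpowers x := by
      rw [hux, ← neg_one_mul]
      exact Subgroup.mul_mem _ hneg (Subgroup.pow_mem _ hxm 2)
    rw [eq_top_iff, ← htop]
    exact (Subgroup.zpowers_le).2 hum

/-- There is a negative integer (namely `-16`) which is not a perfect power and which is not the
largest negative primitive root modulo any prime. -/
theorem result : ∃ a : ℤ, a < 0 ∧ ¬ IsPerfectPower a ∧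
    ∀ p : ℕ, p.Prime → ¬ IsLargestNegPrimRoot a p :=
  ⟨-16, by norm_num, not_perfect, fun p hp h =>
    h.2 (-4) (by norm_num) (by norm_num) (step p hp h.1)⟩

end Pool.Agent.Results.MP_41caf5_nt.ANeverLargest
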